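import Pool.Agent.N328.CD.Defs
import Pool.Agent.H185C.FarCard

/-!
Project CD: the cut condition from expansion and distance (CD/CUT, helper278).
-/

set_option autoImplicit false
set_option linter.unusedSectionVars false

namespace Pool.Agent.N278.CD
open Finset Pool.Agent.H160R2.HF Pool.Agent.N328.LF Pool.Agent.N328.CD
open Pool.Agent.H185C (Near Conn fcBall fcBall_sub fcBall_near fcBall_card fc_near_mono fc_near_trans fc_near_symm)

section det
variable {V E : Type} [Fintype V] [Fintype E] [DecidableEq V] [DecidableEq E]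

/-- a connected set with at least two pairwise far vertices is large (copied from `H185E.Expander`) -/
theorem far_card' (G : OrGraph V E) (r : ℕ) (X : Finset V) (hX : Conn G X) (U : Finset V)
    (hU : U ⊆ X) (hfar : ∀ u ∈ U, ∀ v ∈ U, u ≠ v → ¬ Near G (2 * r) u v) (h2 : 2 ≤ U.card) :
    (r + 1) * U.card ≤ X.card := by
  have hcard : ∀ u ∈ U, r + 1 ≤ (fcBall G X u r).card := by
    intro u hu
    refine fcBall_card G X hX u (hU hu) r ?_
    intro i hi heq
    obtain ⟨w, hw, hwu⟩ := exists_mem_ne (show 1 < U.card by omega) u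
    have h3 : w ∈ fcBall G X u i := by rw [heq]; exact hU hw
    exact hfar u hu w hw hwu.symm
      (fc_near_mono G i (2 * r) (by omega) u w (fcBall_near G X u i w h3))
  have hdisj : (U : Set V).PairwiseDisjoint (fun u => fcBall G X u r) := by
    intro u hu w hw huw
    change Disjoint (fcBall G X u r) (fcBall G X w r)
    rw [disjoint_left]
    intro x hx hx'
    have h3 := fc_near_trans G r r u x w (fcBall_near G X u r x hx)
      (fc_near_symm G r w x (fcBall_near G X w r x hx'))
    rw [← two_mul] at h3
    exact hfar u hu w hw huw h3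
  calc (r + 1) * U.card = ∑ u ∈ U, (r + 1) := by rw [sum_const, smul_eq_mul, mul_comm]
    _ ≤ ∑ u ∈ U, (fcBall G X u r).card := sum_le_sum hcard
    _ = (U.biUnion (fun u => fcBall G X u r)).card := (card_biUnion hdisj).symm
    _ ≤ X.card := card_le_card (biUnion_subset.2 fun u hu => fcBall_sub G X u (hU hu) r)

theorem cut_compl (G : OrGraph V E) (X : Finset V) : G.cut Xᶜ = G.cut X := by
  ext e
  unfold OrGraph.cut
  simp only [mem_filter, mem_univ, true_and, mem_compl, not_iff_not]

theorem mem_cut (G : OrGraph V E) (X : Finset V) (e : E) :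
    e ∈ G.cut X ↔ ¬ (G.t e ∈ X ↔ G.h e ∈ X) := by
  unfold OrGraph.cut
  rw [mem_filter]
  exact ⟨fun h => h.2, fun h => ⟨mem_univ _, h⟩⟩

/-- the end of a cut edge in `X` -/
def inn (G : OrGraph V E) (X : Finset V) (e : E) : V := if G.t e ∈ X then G.t e else G.h e

theorem inn_mem (G : OrGraph V E) (X : Finset V) {e : E} (he : e ∈ G.cut X) : inn G X e ∈ X := by
  rw [mem_cut] at he
  unfold inn
  split_ifs with h
  · exact h
  · by_contra h'
    exact he ⟨fun h1 => absurd h1 h, fun h1 => absurd h1 h'⟩

theorem inn_far (G : OrGraph V E) (X : Finset V) (r : ℕ) {a b : E} (h : Far G r a b) :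
    ¬ Near G r (inn G X a) (inn G X b) := by
  unfold inn
  split_ifs
  · exact h.1
  · exact h.2.1
  · exact h.2.2.1
  · exact h.2.2.2

theorem side (q : ℕ) (G : OrGraph V E) (hc : G.Cubic) (hl : ∀ e, G.t e ≠ G.h e)
    (hexp : ∀ X : Finset V, 2 * X.card ≤ Fintype.card V → X.card ≤ q * (G.cut X).card)
    (hsmall : ∀ X : Finset V, X.card ≤ 4 ^ (10 * q + 5) → X.card ≤ (G.cut X).card + 1)
    (F : Finset E) (hF : G.IsTwoFactor F) (J : Finset E) (hJ : J ∩ F = ∅)
    (hpar : ∀ X : Finset V, G.cut X ∩ F = ∅ → Even (X.card + (X ∩ ends G J).card))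
    (hfar : ∀ a ∈ J, ∀ b ∈ J, a ≠ b → Far G (6 * q) a b) (X : Finset V) (hX : X.Nonempty)
    (hconn : Conn G X) (h2X : 2 * X.card ≤ Fintype.card V) :
    3 * (G.cut X ∩ J).card ≤ (G.cut X).card := by
  have hex := hexp X h2X
  have hXpos : 0 < X.card := card_pos.2 hX
  have hq : 1 ≤ q := by
    rcases Nat.eq_zero_or_pos q with h | h
    · rw [h, Nat.zero_mul] at hex
      omega
    · exact h
  have hJF : ∀ j ∈ J, j ∉ F := by
    intro j hj hjF
    have : j ∈ J ∩ F := mem_inter.2 ⟨hj, hjF⟩
    rw [hJ] at this
    exact absurd this (notMem_empty _)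
  rcases Nat.lt_or_ge (G.cut X ∩ J).card 2 with hs | hs
  · rcases Nat.eq_zero_or_pos (G.cut X ∩ J).card with h0 | hpos
    · omega
    · have hs1 : (G.cut X ∩ J).card = 1 := by omega
      rw [hs1]
      by_contra hcon
      have hcle : (G.cut X).card ≤ 2 := by omega
      have hcge : 1 ≤ (G.cut X).card := by
        have := card_le_card (inter_subset_left : G.cut X ∩ J ⊆ G.cut X)
        omega
      have hX2 : X.card ≤ 2 * q := by
        have := Nat.mul_le_mul_left q hcle
        omega
      have hX4 : X.card ≤ 4 ^ (10 * q + 5) := by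
        have h1 : 10 * q + 5 < 4 ^ (10 * q + 5) := Nat.lt_pow_self (by norm_num)
        omega
      have hsm := hsmall X hX4
      have hh := G.handshake univ X
      rw [sum_congr rfl (fun v _ => hc v), sum_const, smul_eq_mul, inter_univ] at hh
      obtain ⟨j, hj⟩ := card_eq_one.1 hs1
      have hjm : j ∈ G.cut X ∩ J := by rw [hj]; exact mem_singleton_self j
      rw [mem_inter] at hjm
      rcases Nat.lt_or_ge (G.cut X).card 2 with hc1 | hc2
      · -- one edge
        have hX1 : X.card = 1 := by omega
        have he1 : (univ.filter (fun e => G.t e ∈ X ∧ G.h e ∈ X)).card = 1 := by omega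
        obtain ⟨v, hv⟩ := card_eq_one.1 hX1
        obtain ⟨e, he⟩ := card_eq_one.1 he1
        have hem : e ∈ univ.filter (fun e => G.t e ∈ X ∧ G.h e ∈ X) := by
          rw [he]; exact mem_singleton_self e
        rw [mem_filter, hv, mem_singleton, mem_singleton] at hem
        exact hl e (hem.2.1.trans hem.2.2.symm)
      · -- two edges
        have hc2' : (G.cut X).card = 2 := by omega
        have hX2' : X.card = 2 := by omega
        have he2 : (univ.filter (fun e => G.t e ∈ X ∧ G.h e ∈ X)).card = 2 := by omega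
        have hhF := G.handshake F X
        rw [sum_congr rfl (fun v _ => hF v), sum_const, smul_eq_mul] at hhF
        have hlt : (G.cut X ∩ F).card < 2 := by
          rw [← hc2']
          apply card_lt_card
          rw [ssubset_iff_of_subset inter_subset_left]
          refine ⟨j, hjm.1, fun h => hJF j hjm.2 (mem_inter.1 h).2⟩
        have hcF : (G.cut X ∩ F).card = 0 := by omega
        have hcF' : G.cut X ∩ F = ∅ := card_eq_zero.1 hcF
        have hFin : (F.filter (fun e => G.t e ∈ X ∧ G.h e ∈ X)).card = 2 := by omega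
        have hsubF : F.filter (fun e => G.t e ∈ X ∧ G.h e ∈ X) =
            univ.filter (fun e => G.t e ∈ X ∧ G.h e ∈ X) :=
          eq_of_subset_of_card_le (filter_subset_filter _ (subset_univ _)) (by omega)
        have hin : ∀ e ∈ J, ¬ (G.t e ∈ X ∧ G.h e ∈ X) := by
          intro e he h
          have h1 : e ∈ univ.filter (fun e => G.t e ∈ X ∧ G.h e ∈ X) :=
            mem_filter.2 ⟨mem_univ _, h⟩
          rw [← hsubF, mem_filter] at h1
          exact hJF e he h1.1
        have hev := hpar X hcF'
        rw [hX2'] at hev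
        have hmemends : ∀ v, v ∈ ends G J ↔ ∃ j ∈ J, G.t j = v ∨ G.h j = v := by
          intro v
          unfold ends
          rw [mem_filter]
          exact ⟨fun h => h.2, fun h => ⟨mem_univ _, h⟩⟩
        have hge1 : 1 ≤ (X ∩ ends G J).card := by
          rw [Nat.one_le_iff_ne_zero, ← Nat.pos_iff_ne_zero, card_pos]
          refine ⟨inn G X j, mem_inter.2 ⟨inn_mem G X hjm.1, (hmemends _).2 ⟨j, hjm.2, ?_⟩⟩⟩
          unfold inn
          split_ifs
          · exact Or.inl rfl
          · exact Or.inr rfl
        have hle2 : (X ∩ ends G J).card ≤ 2 := by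
          rw [← hX2']
          exact card_le_card inter_subset_left
        have heq2 : (X ∩ ends G J).card = 2 := by
          obtain ⟨k, hk⟩ := hev
          omega
        have hXe : X ∩ ends G J = X :=
          eq_of_subset_of_card_le inter_subset_left (by omega)
        have hall : ∀ v ∈ X, G.t j = v ∨ G.h j = v := by
          intro v hv
          rw [← hXe, mem_inter] at hv
          obtain ⟨j', hj', hv'⟩ := (hmemends v).1 hv.2
          have hcutj : j' ∈ G.cut X := by
            rw [mem_cut]
            intro hiff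
            apply hin j' hj'
            rcases hv' with h | h
            · have h1 : G.t j' ∈ X := by rw [h]; exact hv.1
              exact ⟨h1, hiff.1 h1⟩
            · have h1 : G.h j' ∈ X := by rw [h]; exact hv.1
              exact ⟨hiff.2 h1, h1⟩
          have h3 : j' ∈ G.cut X ∩ J := mem_inter.2 ⟨hcutj, hj'⟩
          rw [hj, mem_singleton] at h3
          rw [← h3]
          exact hv'
        obtain ⟨u, v, huv, hXuv⟩ := card_eq_two.1 hX2'
        have huX : u ∈ X := by rw [hXuv]; simp
        have hvX : v ∈ X := by rw [hXuv]; simp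
        apply hin j hjm.2
        rcases hall u huX with h1 | h1 <;> rcases hall v hvX with h2 | h2
        · exact absurd (h1.symm.trans h2) huv
        · exact ⟨by rw [h1]; exact huX, by rw [h2]; exact hvX⟩
        · exact ⟨by rw [h2]; exact hvX, by rw [h1]; exact huX⟩
        · exact absurd (h1.symm.trans h2) huv
  · -- at least two edges of `J`
    have hinj : Set.InjOn (inn G X) ((G.cut X ∩ J : Finset E) : Set E) := by
      intro a ha b hb hab
      rw [mem_coe, mem_inter] at ha hb
      by_contra hne
      apply inn_far G X (6 * q) (hfar a ha.2 b hb.2 hne)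
      rw [hab]
      exact fc_near_mono G 0 (6 * q) (Nat.zero_le _) _ _ rfl
    have hcard : ((G.cut X ∩ J).image (inn G X)).card = (G.cut X ∩ J).card :=
      card_image_of_injOn hinj
    have hfc := far_card' G (3 * q) X hconn ((G.cut X ∩ J).image (inn G X)) (by
      intro v hv
      rw [mem_image] at hv
      obtain ⟨e, he, rfl⟩ := hv
      exact inn_mem G X (mem_inter.1 he).1) (by
      intro u hu v hv huv
      rw [mem_image] at hu hv
      obtain ⟨a, ha, rfl⟩ := hu
      obtain ⟨b, hb, rfl⟩ := hv
      have hab : a ≠ b := fun h => huv (by rw [h])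
      have h6 : 2 * (3 * q) = 6 * q := by ring
      rw [h6]
      exact inn_far G X (6 * q) (hfar a (mem_inter.1 ha).2 b (mem_inter.1 hb).2 hab)) (by
      rw [hcard]; exact hs)
    rw [hcard] at hfc
    have h1 : q * (3 * (G.cut X ∩ J).card) ≤ q * (G.cut X).card := by
      calc q * (3 * (G.cut X ∩ J).card) = (3 * q) * (G.cut X ∩ J).card := by ring
        _ ≤ (3 * q + 1) * (G.cut X ∩ J).card := Nat.mul_le_mul_right _ (by omega)
        _ ≤ X.card := hfc
        _ ≤ _ := hex
    exact Nat.le_of_mul_le_mul_left h1 (by omega)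

/-- CD/CUT: the cut condition from expansion and distance. -/
theorem cut (q : ℕ) (G : OrGraph V E) (hc : G.Cubic) (hl : ∀ e, G.t e ≠ G.h e)
    (hexp : ∀ X : Finset V, 2 * X.card ≤ Fintype.card V → X.card ≤ q * (G.cut X).card)
    (hsmall : ∀ X : Finset V, X.card ≤ 4 ^ (10 * q + 5) → X.card ≤ (G.cut X).card + 1)
    (F : Finset E) (hF : G.IsTwoFactor F) (J : Finset E) (hJ : J ∩ F = ∅)
    (hpar : ∀ X : Finset V, G.cut X ∩ F = ∅ → Even (X.card + (X ∩ ends G J).card))
    (hfar : ∀ a ∈ J, ∀ b ∈ J, a ≠ b → Far G (6 * q) a b) :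
    ∀ X : Finset V, X.Nonempty → Xᶜ.Nonempty → Conn G X → Conn G Xᶜ →
      3 * (G.cut X ∩ J).card ≤ (G.cut X).card := by
  intro X hX hXc hconn hconnc
  rcases Nat.le_total (2 * X.card) (Fintype.card V) with h | h
  · exact side q G hc hl hexp hsmall F hF J hJ hpar hfar X hX hconn h
  · have h1 := card_add_card_compl X
    have h2 := side q G hc hl hexp hsmall F hF J hJ hpar hfar Xᶜ hXc hconnc (by omega)
    rwa [cut_compl] at h2

end det

end Pool.Agent.N278.CD
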